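import Mathlib

set_option autoImplicit false

namespace Pool.Agent.Results.MP_fdbc88_co.D24

open SimpleGraph

/-- proper, and vertices of the same colour see different colour sets -/
def IsNL {V α : Type} (G : SimpleGraph V) (c : V → α) : Prop :=
  (∀ u v, G.Adj u v → c u ≠ c v) ∧
    ∀ u v, c u = c v → c '' G.neighborSet u = c '' G.neighborSet v → u = v

/-- the neighbor-locating chromatic number -/
noncomputable def chiNL {V : Type} (G : SimpleGraph V) : ℕ := sInf {k | ∃ c : V → Fin k, IsNL G c}

lemma IsNL.comp {V α β : Type} {G : SimpleGraph V} {c : V → α} (h : IsNL G c) {e : α → β}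
    (he : Function.Injective e) : IsNL G (e ∘ c) :=
  ⟨fun u v a h' => h.1 u v a (he h'), fun u v h1 h2 => h.2 u v (he h1) (by
    rw [Set.image_comp, Set.image_comp] at h2
    exact he.image_injective h2)⟩

instance : DecidableRel (pathGraph 25).Adj := fun _ _ => decidable_of_iff _ pathGraph_adj.symm

lemma path5 : 5 ≤ chiNL (pathGraph 25) := by
  refine le_csInf ⟨25, id, fun u v h => h.ne, fun u v h _ => h⟩ ?_
  rintro j ⟨c0, hc0⟩
  by_contra hj
  have hc := hc0.comp (Fin.castLE_injective (by omega : j ≤ 4))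
  generalize (Fin.castLE (by omega : j ≤ 4) ∘ c0) = c at hc
  have hd : ∀ v, 1 ≤ ((pathGraph 25).neighborFinset v).card ∧
      ((pathGraph 25).neighborFinset v).card ≤ 2 := by decide +kernel
  have := Finset.card_le_card_of_injOn (s := Finset.univ)
    (t := (Finset.univ : Finset (Fin 4 × Finset (Fin 4))).filter fun p =>
      p.1 ∉ p.2 ∧ 1 ≤ p.2.card ∧ p.2.card ≤ 2)
    (fun v => (c v, ((pathGraph 25).neighborFinset v).image c)) (fun v _ => by
      simp only [Finset.coe_filter, Finset.mem_univ, true_and, Set.mem_ofPred_eq]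
      refine ⟨fun h => ?_, ?_, Finset.card_image_le.trans (hd v).2⟩
      · obtain ⟨w, h1, h2⟩ := Finset.mem_image.1 h
        exact hc.1 v w (by simpa using h1) h2.symm
      · exact Finset.card_pos.2 ((Finset.card_pos.1 (hd v).1).image c))
    (fun u _ v _ h => hc.2 u v (congrArg Prod.fst h) (by
      have := congrArg (fun p : Fin 4 × Finset (Fin 4) => (p.2 : Set (Fin 4))) h
      simpa using this))
  revert this
  decide +kernel

def G : SimpleGraph (Fin 26) where
  Adj a b := (a.val + 1 = b.val ∧ b.val < 25) ∨ (b.val + 1 = a.val ∧ a.val < 25) ∨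
    (a.val = 25 ∧ 1 ≤ b.val ∧ b.val ≤ 3) ∨ (b.val = 25 ∧ 1 ≤ a.val ∧ a.val ≤ 3)
  symm := ⟨fun a b h => by omega⟩
  loopless := ⟨fun a h => by omega⟩

instance : DecidableRel G.Adj := fun _ _ => inferInstanceAs (Decidable (_ ∨ _))

def col (a : Fin 26) : Fin 4 :=
  [1, 2, 3, 1, 0, 1, 0, 2, 0, 2, 1, 0, 3, 0, 2, 3, 0, 3, 1, 2, 3, 2, 3, 1, 3, 0].getD a.val 0

lemma four : chiNL G ≤ 4 := by
  refine Nat.sInf_le ⟨col, by decide +kernel, fun u v h1 h2 => ?_⟩
  have key : ∀ u v, col u = col v → (G.neighborFinset u).image col = (G.neighborFinset v).image col →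
      u = v := by decide +kernel
  exact key u v h1 (Finset.coe_injective (by simpa using h2))

def phi (a : Fin 26) : ℕ := if a.val = 25 then 2 else a.val

lemma lip {a b : Fin 26} (p : G.Walk a b) : phi b ≤ phi a + p.length := by
  induction p with
  | nil => simp
  | @cons x y z h p ih =>
    have : ∀ x y, G.Adj x y → phi y ≤ phi x + 1 := by decide +kernel
    have := this x y h
    simp only [Walk.length_cons]
    omega

lemma up : ∀ (d : ℕ) (a b : Fin 26), a.val + d = b.val → b.val < 25 → G.edist a b ≤ d := by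
  intro d
  induction d with
  | zero => intro a b h _; rw [show a = b from Fin.ext h]; simp
  | succ d ih =>
    intro a b h hb
    have h1 := ih a ⟨a.val + d, by omega⟩ rfl (by simp; omega)
    have h2 : G.edist ⟨a.val + d, by omega⟩ b = 1 := edist_eq_one_iff_adj.2 (Or.inl ⟨h, hb⟩)
    refine (G.edist_triangle (v := ⟨a.val + d, by omega⟩)).trans ?_
    rw [h2]
    push_cast
    gcongr

lemma up2 (a b : Fin 26) (ha : a.val < 25) (hb : b.val < 25) (n : ℕ) (h1 : a.val ≤ b.val + n)
    (h2 : b.val ≤ a.val + n) : G.edist a b ≤ n := by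
  rcases le_total a.val b.val with h | h
  · exact (up (b.val - a.val) a b (by omega) hb).trans (by exact_mod_cast (by omega))
  · rw [edist_comm]
    exact (up (a.val - b.val) b a (by omega) ha).trans (by exact_mod_cast (by omega))

lemma up3 (b : Fin 26) (hb : b.val < 25) : G.edist 25 b ≤ 24 := by
  refine (G.edist_triangle (v := 2)).trans ?_
  rw [edist_eq_one_iff_adj.2 (by decide : G.Adj 25 2)]
  have := up2 2 b (by decide) hb 23 (by simp) (by simp; omega)
  calc 1 + G.edist 2 b ≤ 1 + (23 : ℕ) := by gcongr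
    _ = 24 := by norm_num

lemma all (a b : Fin 26) : G.edist a b ≤ 24 := by
  by_cases ha : a = 25 <;> by_cases hb : b = 25
  · simp [ha, hb]
  · rw [ha]; exact up3 b (by omega)
  · rw [hb, edist_comm]; exact up3 a (by omega)
  · exact up2 a b (by omega) (by omega) 24 (by omega) (by omega)

lemma diamG : G.ediam = 24 := by
  refine le_antisymm (ediam_le_of_edist_le all) (le_trans ?_ (edist_le_ediam (u := 0) (v := 24)))
  rw [edist_eq_sInf]
  refine le_sInf ?_
  rintro _ ⟨p, rfl⟩
  have := lip p
  simp [phi] at this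
  beta_reduce
  exact_mod_cast this

/-- A connected graph of diameter `24` with `χ_NL ≤ 4 < χ_NL(P_25)`. -/
theorem result : ∃ (V : Type) (_ : Fintype V) (G : SimpleGraph V) (d : ℕ), G.Connected ∧
    G.diam = d ∧ chiNL G < chiNL (pathGraph (d + 1)) := by
  refine ⟨Fin 26, inferInstance, G, 24, ⟨fun a b => reachable_of_edist_ne_top ?_⟩, ?_, ?_⟩
  · exact ne_top_of_le_ne_top (by decide) (all a b)
  · simp [diam, diamG]
  · exact four.trans_lt path5

end Pool.Agent.Results.MP_fdbc88_co.D24
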